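import Mathlib
import Pool.Agent.H590.NL.Stm

/-!
# Smoothness of the regularised kernel
-/

set_option autoImplicit false

noncomputable section

open MeasureTheory Filter Topology Set

namespace H743NLKS

open H590NL

variable {p c z0 z1 : ℝ}

/-- the moments `∫ z^k exp (-z r) c z^(-1-p/2) dz` -/
def N (p c z0 z1 : ℝ) (k : ℕ) (r : ℝ) : ℝ :=
  ∫ z in z0..z1, z ^ k * Real.exp (-(z * r)) * (c * z ^ (-1 - p / 2))

/-- the integrand -/
def I (p c : ℝ) (k : ℕ) (r z : ℝ) : ℝ := z ^ k * Real.exp (-(z * r)) * (c * z ^ (-1 - p / 2))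

lemma I_cont (h0 : 0 < z0) (h1 : z0 < z1) (k : ℕ) (r : ℝ) :
    ContinuousOn (I p c k r) (uIcc z0 z1) := by
  have hw : ContinuousOn (fun z : ℝ => z ^ (-1 - p / 2)) (uIcc z0 z1) := by
    apply ContinuousOn.rpow_const continuousOn_id
    intro z hz
    rw [uIcc_of_le h1.le] at hz
    exact Or.inl (by simp only [id]; linarith [hz.1])
  have h2 : ContinuousOn (fun z : ℝ => z ^ k * Real.exp (-(z * r))) (uIcc z0 z1) := by
    apply Continuous.continuousOn
    fun_prop
  exact h2.mul (continuousOn_const.mul hw)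

lemma I_int (h0 : 0 < z0) (h1 : z0 < z1) (k : ℕ) (r : ℝ) :
    IntervalIntegrable (I p c k r) volume z0 z1 := (I_cont h0 h1 k r).intervalIntegrable

lemma mem_pos (h0 : 0 < z0) (h1 : z0 < z1) {z : ℝ} (hz : z ∈ Set.uIoc z0 z1) : 0 < z ∧ z ≤ z1 := by
  rw [uIoc_of_le h1.le] at hz
  exact ⟨by linarith [hz.1], hz.2⟩

lemma I_nonneg (hc : 0 < c) (k : ℕ) (r : ℝ) {z : ℝ} (hz : 0 < z) : 0 ≤ I p c k r z := by
  unfold I
  have := Real.rpow_pos_of_pos hz (-1 - p / 2)
  positivity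

lemma N_deriv (hc : 0 < c) (h0 : 0 < z0) (h1 : z0 < z1) (k : ℕ) (r : ℝ) :
    HasDerivAt (N p c z0 z1 k) (-(N p c z0 z1 (k + 1) r)) r := by
  have key := intervalIntegral.hasDerivAt_integral_of_dominated_loc_of_deriv_le
    (μ := volume) (a := z0) (b := z1) (F := fun r z => I p c k r z)
    (F' := fun r z => -(I p c (k + 1) r z)) (x₀ := r) (s := Metric.ball r 1)
    (bound := fun z => I p c (k + 1) (r - 1) z)
    (Metric.ball_mem_nhds r one_pos)
    (Filter.Eventually.of_forall fun x => (I_int h0 h1 k x).def'.aestronglyMeasurable)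
    (I_int h0 h1 k r)
    ((I_int h0 h1 (k + 1) r).def'.aestronglyMeasurable.neg)
    (Filter.Eventually.of_forall fun z hz x hx => ?_)
    (I_int h0 h1 (k + 1) (r - 1))
    (Filter.Eventually.of_forall fun z hz x hx => ?_)
  · have h2 := key.2
    have e : (∫ t in z0..z1, -(I p c (k + 1) r t)) = -(N p c z0 z1 (k + 1) r) := by
      rw [intervalIntegral.integral_neg]
      rfl
    rw [e] at h2
    exact h2
  · obtain ⟨hz0, hz1⟩ := mem_pos h0 h1 hz
    rw [norm_neg, Real.norm_eq_abs, abs_of_nonneg (I_nonneg hc (k + 1) x hz0)]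
    unfold I
    have hw := Real.rpow_pos_of_pos hz0 (-1 - p / 2)
    apply mul_le_mul_of_nonneg_right _ (by positivity)
    apply mul_le_mul_of_nonneg_left _ (by positivity)
    apply Real.exp_le_exp.2
    have hx2 : r - 1 < x := by
      have := (abs_lt.1 (by simpa [Real.dist_eq] using hx : |x - r| < 1)).1
      linarith
    nlinarith
  · have h3 : HasDerivAt (fun x : ℝ => -(z * x)) (-z) x := by
      have h5 : HasDerivAt (fun x : ℝ => -(z * x)) (-(z * 1)) x :=
        ((hasDerivAt_id' x).const_mul z).neg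
      exact h5.congr_deriv (by ring)
    have h4 := (h3.exp.const_mul (z ^ k)).mul_const (c * z ^ (-1 - p / 2))
    refine h4.congr_deriv ?_
    unfold I
    ring

lemma N_nonneg (hc : 0 < c) (h0 : 0 < z0) (h1 : z0 < z1) (k : ℕ) (r : ℝ) :
    0 ≤ N p c z0 z1 k r := by
  apply intervalIntegral.integral_nonneg h1.le
  intro z hz
  exact I_nonneg hc k r (by linarith [hz.1])

/-- comparison of moments -/
lemma N_le {a b : ℝ} (hc : 0 < c) (h0 : 0 < z0) (h1 : z0 < z1) (k : ℕ) (r s : ℝ)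
    (h : ∀ z : ℝ, 0 < z → s * (z ^ k * Real.exp (-(z * r))) ≤ a * z ^ k + b * z) :
    s * N p c z0 z1 k r ≤ a * N p c z0 z1 k 0 + b * N p c z0 z1 1 0 := by
  have e1 : s * N p c z0 z1 k r = ∫ z in z0..z1, s * I p c k r z := by
    rw [intervalIntegral.integral_const_mul]
    rfl
  have e2 : a * N p c z0 z1 k 0 + b * N p c z0 z1 1 0 =
      ∫ z in z0..z1, (a * I p c k 0 z + b * I p c 1 0 z) := by
    rw [intervalIntegral.integral_add ((I_int h0 h1 k 0).const_mul a)
      ((I_int h0 h1 1 0).const_mul b), intervalIntegral.integral_const_mul,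
      intervalIntegral.integral_const_mul]
    rfl
  rw [e1, e2]
  apply intervalIntegral.integral_mono_on h1.le ((I_int h0 h1 k r).const_mul s)
    (((I_int h0 h1 k 0).const_mul a).add ((I_int h0 h1 1 0).const_mul b))
  intro z hz
  have hz0 : 0 < z := by linarith [hz.1]
  have hw := Real.rpow_pos_of_pos hz0 (-1 - p / 2)
  have h2 := mul_le_mul_of_nonneg_right (h z hz0) (by positivity : 0 ≤ c * z ^ (-1 - p / 2))
  unfold I
  simp only [mul_zero, neg_zero, Real.exp_zero, pow_one, mul_one]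
  linarith

lemma exp_x {x : ℝ} (hx : 0 ≤ x) : x * Real.exp (-x) ≤ 1 := by
  rw [Real.exp_neg, ← div_eq_mul_inv, div_le_one (Real.exp_pos x)]
  linarith [Real.add_one_le_exp x]

lemma exp_xx {x : ℝ} (hx : 0 ≤ x) : x ^ 2 * Real.exp (-x) ≤ 2 := by
  rw [Real.exp_neg, ← div_eq_mul_inv, div_le_iff₀ (Real.exp_pos x)]
  linarith [Real.quadratic_le_exp_of_nonneg hx]

lemma exp_one {x : ℝ} (hx : 0 ≤ x) : Real.exp (-x) ≤ 1 := by
  rw [Real.exp_le_one_iff]
  linarith

/-- integration by parts -/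
lemma parts (hp1 : 1 < p) (hp2 : p < 2) (hc : 0 < c) (h0 : 0 < z0) (h1 : z0 < z1) (r : ℝ)
    (hr : 0 ≤ r) :
    r * N p c z0 z1 2 r - (1 - p / 2) * N p c z0 z1 1 r ≤ c * z0 ^ (1 - p / 2) := by
  have hd : ∀ z ∈ uIcc z0 z1, HasDerivAt (fun z : ℝ => -(c * (z ^ (1 - p / 2) *
      Real.exp (-(z * r))))) (r * I p c 2 r z - (1 - p / 2) * I p c 1 r z) z := by
    intro z hz
    rw [uIcc_of_le h1.le] at hz
    have hz0 : 0 < z := by linarith [hz.1]
    have a1 : HasDerivAt (fun z : ℝ => z ^ (1 - p / 2)) ((1 - p / 2) * z ^ (1 - p / 2 - 1)) z :=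
      Real.hasDerivAt_rpow_const (Or.inl hz0.ne')
    have a2 : HasDerivAt (fun z : ℝ => -(z * r)) (-r) z := by
      have h5 : HasDerivAt (fun z : ℝ => -(z * r)) (-(1 * r)) z :=
        ((hasDerivAt_id' z).mul_const r).neg
      exact h5.congr_deriv (by ring)
    have a3 := ((a1.mul a2.exp).const_mul c).neg
    refine a3.congr_deriv ?_
    unfold I
    have e1 : z ^ (1 - p / 2 - 1) = z * z ^ (-1 - p / 2) := by
      rw [← Real.rpow_one_add' hz0.le (by linarith)]
      congr 1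
      ring
    have e2 : z ^ (1 - p / 2) = z ^ 2 * z ^ (-1 - p / 2) := by
      rw [← Real.rpow_natCast z 2, ← Real.rpow_add hz0]
      congr 1
      push_cast
      ring
    rw [e1, e2]
    ring
  have hi : IntervalIntegrable (fun z => r * I p c 2 r z - (1 - p / 2) * I p c 1 r z)
      volume z0 z1 := ((I_int h0 h1 2 r).const_mul r).sub ((I_int h0 h1 1 r).const_mul _)
  have key := intervalIntegral.integral_eq_sub_of_hasDerivAt hd hi
  rw [intervalIntegral.integral_sub ((I_int h0 h1 2 r).const_mul r)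
    ((I_int h0 h1 1 r).const_mul _), intervalIntegral.integral_const_mul,
    intervalIntegral.integral_const_mul] at key
  have e3 : r * N p c z0 z1 2 r - (1 - p / 2) * N p c z0 z1 1 r =
      r * (∫ z in z0..z1, I p c 2 r z) - (1 - p / 2) * ∫ z in z0..z1, I p c 1 r z := rfl
  rw [e3, key]
  have b1 := Real.rpow_pos_of_pos h0 (1 - p / 2)
  have b2 := Real.rpow_pos_of_pos (h0.trans h1) (1 - p / 2)
  have b3 : Real.exp (-(z0 * r)) ≤ 1 := exp_one (by positivity)
  have b4 := Real.exp_pos (-(z1 * r))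
  have b5 : z0 ^ (1 - p / 2) * Real.exp (-(z0 * r)) ≤ z0 ^ (1 - p / 2) :=
    mul_le_of_le_one_right b1.le b3
  have b6 : 0 ≤ z1 ^ (1 - p / 2) * Real.exp (-(z1 * r)) := by positivity
  have b7 := mul_le_mul_of_nonneg_left b5 hc.le
  have b8 := mul_nonneg hc.le b6
  linarith

lemma om_eq (u : ℝ) : om p c z0 z1 u =
    c * z0 ^ (1 - p / 2) / (1 - p / 2) + N p c z0 z1 1 (u ^ 2) := by
  unfold om N
  simp only [pow_one]

lemma psi_eq (h0 : 0 < z0) (h1 : z0 < z1) (u : ℝ) : psi p c z0 z1 u =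
    c * z0 ^ (1 - p / 2) / (1 - p / 2) * u ^ 2 + (N p c z0 z1 0 0 - N p c z0 z1 0 (u ^ 2)) := by
  have e : N p c z0 z1 0 0 - N p c z0 z1 0 (u ^ 2) =
      ∫ z in z0..z1, (I p c 0 0 z - I p c 0 (u ^ 2) z) := by
    rw [intervalIntegral.integral_sub (I_int h0 h1 0 0) (I_int h0 h1 0 (u ^ 2))]
    rfl
  rw [e]
  unfold psi
  congr 1
  apply intervalIntegral.integral_congr
  intro z _
  unfold I
  simp only [pow_zero, mul_zero, neg_zero, Real.exp_zero, one_mul]
  ring

lemma psi2_eq (h0 : 0 < z0) (h1 : z0 < z1) (u : ℝ) : psi2 p c z0 z1 u =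
    2 * (c * z0 ^ (1 - p / 2) / (1 - p / 2)) +
      (2 * N p c z0 z1 1 (u ^ 2) - 4 * u ^ 2 * N p c z0 z1 2 (u ^ 2)) := by
  have e : 2 * N p c z0 z1 1 (u ^ 2) - 4 * u ^ 2 * N p c z0 z1 2 (u ^ 2) =
      ∫ z in z0..z1, (2 * I p c 1 (u ^ 2) z - 4 * u ^ 2 * I p c 2 (u ^ 2) z) := by
    rw [intervalIntegral.integral_sub ((I_int h0 h1 1 (u ^ 2)).const_mul 2)
      ((I_int h0 h1 2 (u ^ 2)).const_mul _), intervalIntegral.integral_const_mul,
      intervalIntegral.integral_const_mul]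
    rfl
  rw [e]
  unfold psi2
  congr 1
  apply intervalIntegral.integral_congr
  intro z _
  unfold I
  simp only [pow_one]
  ring

lemma sq_deriv (u : ℝ) : HasDerivAt (fun u : ℝ => u ^ 2) (2 * u) u := by
  simpa using hasDerivAt_pow 2 u

lemma Nsq_deriv (hc : 0 < c) (h0 : 0 < z0) (h1 : z0 < z1) (k : ℕ) (u : ℝ) :
    HasDerivAt (fun u => N p c z0 z1 k (u ^ 2)) (-(N p c z0 z1 (k + 1) (u ^ 2)) * (2 * u)) u :=
  HasDerivAt.comp (h₂ := N p c z0 z1 k) (h := fun u : ℝ => u ^ 2) u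
    (N_deriv hc h0 h1 k (u ^ 2)) (sq_deriv u)

/-- **KS**: smoothness and bounds of the regularised kernel -/
theorem KS : S_KS := by
  intro p c z0 z1 hp1 hp2 hc h0 h1
  obtain ⟨B, hB⟩ : ∃ B : ℝ, B = c * z0 ^ (1 - p / 2) / (1 - p / 2) := ⟨_, rfl⟩
  have hth : 0 < 1 - p / 2 := by linarith
  have hz := Real.rpow_pos_of_pos h0 (1 - p / 2)
  have hB0 : 0 < B := by rw [hB]; positivity
  have n1 := N_nonneg (p := p) hc h0 h1 1 0
  have n2 := N_nonneg (p := p) hc h0 h1 2 0
  have n3 := N_nonneg (p := p) hc h0 h1 3 0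
  have hom : ∀ u, om p c z0 z1 u = B + N p c z0 z1 1 (u ^ 2) := fun u => by rw [om_eq, hB]
  have hps : ∀ u, psi p c z0 z1 u =
      B * u ^ 2 + (N p c z0 z1 0 0 - N p c z0 z1 0 (u ^ 2)) := fun u => by rw [psi_eq h0 h1, hB]
  have hp2' : ∀ u, psi2 p c z0 z1 u =
      2 * B + (2 * N p c z0 z1 1 (u ^ 2) - 4 * u ^ 2 * N p c z0 z1 2 (u ^ 2)) := fun u => by
    rw [psi2_eq h0 h1, hB]
  -- bounds
  have c1 : ∀ u : ℝ, N p c z0 z1 1 (u ^ 2) ≤ N p c z0 z1 1 0 := by
    intro u
    have := N_le (p := p) (a := 1) (b := 0) hc h0 h1 1 (u ^ 2) 1 (fun z hz0 => by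
      have := exp_one (x := z * u ^ 2) (by positivity)
      rw [pow_one]
      nlinarith)
    linarith
  have c2 : ∀ u : ℝ, u ^ 2 * N p c z0 z1 2 (u ^ 2) ≤ N p c z0 z1 1 0 := by
    intro u
    have := N_le (p := p) (a := 0) (b := 1) hc h0 h1 2 (u ^ 2) (u ^ 2) (fun z hz0 => by
      have h2 := exp_x (x := z * u ^ 2) (by positivity)
      have h3 := mul_le_mul_of_nonneg_left h2 hz0.le
      nlinarith)
    linarith
  have c3 : ∀ u : ℝ, |u| * N p c z0 z1 2 (u ^ 2) ≤ N p c z0 z1 2 0 + N p c z0 z1 1 0 := by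
    intro u
    have := N_le (p := p) (a := 1) (b := 1) hc h0 h1 2 (u ^ 2) |u| (fun z hz0 => by
      have h2 := exp_x (x := z * u ^ 2) (by positivity)
      have h3 := mul_le_mul_of_nonneg_left h2 hz0.le
      have h4 := exp_one (x := z * u ^ 2) (by positivity)
      have h5 := Real.exp_pos (-(z * u ^ 2))
      have h6 : |u| ≤ 1 + u ^ 2 := by
        rw [← sq_abs]
        nlinarith [sq_nonneg (|u| - 1), abs_nonneg u]
      have h7 : |u| * (z ^ 2 * Real.exp (-(z * u ^ 2))) ≤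
          (1 + u ^ 2) * (z ^ 2 * Real.exp (-(z * u ^ 2))) :=
        mul_le_mul_of_nonneg_right h6 (by positivity)
      have h8 : z ^ 2 * Real.exp (-(z * u ^ 2)) ≤ z ^ 2 :=
        mul_le_of_le_one_right (by positivity) h4
      nlinarith)
    linarith
  have c4 : ∀ u : ℝ, |u| ^ 3 * N p c z0 z1 3 (u ^ 2) ≤ N p c z0 z1 3 0 + 2 * N p c z0 z1 1 0 := by
    intro u
    have := N_le (p := p) (a := 1) (b := 2) hc h0 h1 3 (u ^ 2) (|u| ^ 3) (fun z hz0 => by
      have h2 := exp_xx (x := z * u ^ 2) (by positivity)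
      have h3 := mul_le_mul_of_nonneg_left h2 hz0.le
      have h4 := exp_one (x := z * u ^ 2) (by positivity)
      have h5 := Real.exp_pos (-(z * u ^ 2))
      have h6 : |u| ^ 3 ≤ 1 + u ^ 4 := by
        have e : u ^ 4 = |u| ^ 4 := by
          rw [← abs_pow, abs_of_nonneg (by positivity)]
        rw [e]
        obtain ⟨a, ha⟩ : ∃ a, a = |u| := ⟨_, rfl⟩
        have ha0 : 0 ≤ a := by rw [ha]; exact abs_nonneg u
        rw [← ha]
        rcases le_total a 1 with h | h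
        · have := pow_le_one₀ (n := 3) ha0 h
          nlinarith [pow_nonneg ha0 4]
        · have : a ^ 3 ≤ a ^ 4 := pow_le_pow_right₀ h (by norm_num)
          linarith
      have h7 : |u| ^ 3 * (z ^ 3 * Real.exp (-(z * u ^ 2))) ≤
          (1 + u ^ 4) * (z ^ 3 * Real.exp (-(z * u ^ 2))) :=
        mul_le_mul_of_nonneg_right h6 (by positivity)
      have h8 : z ^ 3 * Real.exp (-(z * u ^ 2)) ≤ z ^ 3 :=
        mul_le_of_le_one_right (by positivity) h4
      nlinarith)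
    linarith
  have d1 : ∀ u, HasDerivAt (psi p c z0 z1) (2 * u * om p c z0 z1 u) u := by
    intro u
    have e : psi p c z0 z1 = fun u =>
        B * u ^ 2 + (N p c z0 z1 0 0 - N p c z0 z1 0 (u ^ 2)) := funext hps
    rw [e]
    have h2 := ((sq_deriv u).const_mul B).add ((Nsq_deriv (p := p) hc h0 h1 0 u).const_sub
      (N p c z0 z1 0 0))
    refine h2.congr_deriv ?_
    rw [hom]
    ring
  have dom : ∀ u, HasDerivAt (om p c z0 z1) (-(N p c z0 z1 2 (u ^ 2)) * (2 * u)) u := by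
    intro u
    have e : om p c z0 z1 = fun u => B + N p c z0 z1 1 (u ^ 2) := funext hom
    rw [e]
    exact (Nsq_deriv (p := p) hc h0 h1 1 u).const_add B
  have dp2 : ∀ u, HasDerivAt (psi2 p c z0 z1)
      (-12 * u * N p c z0 z1 2 (u ^ 2) + 8 * u ^ 3 * N p c z0 z1 3 (u ^ 2)) u := by
    intro u
    have e : psi2 p c z0 z1 = fun u =>
        2 * B + (2 * N p c z0 z1 1 (u ^ 2) - 4 * u ^ 2 * N p c z0 z1 2 (u ^ 2)) := funext hp2'
    rw [e]
    have h2 := (((Nsq_deriv (p := p) hc h0 h1 1 u).const_mul 2).sub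
      (((sq_deriv u).const_mul 4).mul (Nsq_deriv (p := p) hc h0 h1 2 u))).const_add (2 * B)
    refine h2.congr_deriv ?_
    ring
  obtain ⟨C, hC⟩ : ∃ C : ℝ, C = 2 * B + 30 * N p c z0 z1 1 0 + 12 * N p c z0 z1 2 0 +
    8 * N p c z0 z1 3 0 := ⟨_, rfl⟩
  refine ⟨C, d1, fun u => ?_, continuous_iff_continuousAt.2 fun u => (dom u).continuousAt,
    continuous_iff_continuousAt.2 fun u => (dp2 u).continuousAt, fun u => ?_, fun u => ?_,
    fun u e => ?_, fun u => ?_⟩
  · have h2 := (((hasDerivAt_id u).const_mul 2).mul (dom u))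
    refine h2.congr_deriv ?_
    rw [hp2', hom]
    simp only [id]
    ring
  · rw [hom, ← hB]
    have := c1 u
    have := N_nonneg (p := p) hc h0 h1 1 (u ^ 2)
    constructor
    · linarith
    · rw [hC]
      linarith
  · rw [hp2', abs_le]
    have a1 := c1 u
    have a2 := c2 u
    have a3 := N_nonneg (p := p) hc h0 h1 1 (u ^ 2)
    have a4 := mul_nonneg (sq_nonneg u) (N_nonneg (p := p) hc h0 h1 2 (u ^ 2))
    rw [hC]
    constructor
    · linarith
    · linarith
  · have hb : ∀ x : ℝ, ‖-12 * x * N p c z0 z1 2 (x ^ 2) + 8 * x ^ 3 * N p c z0 z1 3 (x ^ 2)‖ ≤ C := by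
      intro x
      rw [Real.norm_eq_abs]
      refine (abs_add_le _ _).trans ?_
      have a2 := N_nonneg (p := p) hc h0 h1 2 (x ^ 2)
      have a3 := N_nonneg (p := p) hc h0 h1 3 (x ^ 2)
      have e1 : |-12 * x * N p c z0 z1 2 (x ^ 2)| = 12 * (|x| * N p c z0 z1 2 (x ^ 2)) := by
        rw [abs_mul, abs_mul, abs_of_nonneg a2]
        norm_num
        ring
      have e2 : |8 * x ^ 3 * N p c z0 z1 3 (x ^ 2)| = 8 * (|x| ^ 3 * N p c z0 z1 3 (x ^ 2)) := by
        rw [abs_mul, abs_mul, abs_of_nonneg a3, abs_pow]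
        norm_num
        ring
      rw [e1, e2, hC]
      have := c3 x
      have := c4 x
      linarith
    have key := Convex.norm_image_sub_le_of_norm_hasDerivWithin_le (f := psi2 p c z0 z1)
      (s := Set.univ) (x := u) (y := u + e) (fun x _ => (dp2 x).hasDerivWithinAt)
      (fun x _ => hb x) convex_univ (mem_univ _) (mem_univ _)
    rw [Real.norm_eq_abs, Real.norm_eq_abs] at key
    simpa using key
  · rw [hom, hp2']
    have h2 := parts hp1 hp2 hc h0 h1 (u ^ 2) (sq_nonneg u)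
    have h3 : (1 - p / 2) * B = c * z0 ^ (1 - p / 2) := by
      rw [hB, mul_div_assoc']
      exact mul_div_cancel_left₀ _ hth.ne'
    rw [← h3] at h2
    nlinarith

end H743NLKS
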